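import Pool.Agent.H39.IX.Targets

/-!
# MP_323167_an: module CAY (the half-angle transform of a self-adjoint contraction)
-/

set_option autoImplicit false

open scoped InnerProductSpace Topology
open Filter Finset Pool.Agent.H80.G2

namespace Pool.Agent.H11.IX

open Pool.Agent.H39.IX

theorem pf_CAY : T_CAY := by
  intro H _ _ _ T hT hn
  have hsa : IsSelfAdjoint T := hT
  set g : ℝ → ℝ := fun t => t / (1 + Real.sqrt (1 - t ^ 2)) with hg
  have hpos : ∀ t : ℝ, 0 < 1 + Real.sqrt (1 - t ^ 2) := fun t => by
    have := Real.sqrt_nonneg (1 - t ^ 2)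
    linarith
  have hgc : Continuous g := by
    apply Continuous.div continuous_id
    · fun_prop
    · intro t
      exact (hpos t).ne'
  have hspec : ∀ t ∈ spectrum ℝ T, |t| ≤ 1 := by
    intro t ht
    have h := spectrum.norm_le_norm_mul_of_mem ht
    rw [Real.norm_eq_abs] at h
    have h1 : ‖(1 : H →L[ℂ] H)‖ ≤ 1 := ContinuousLinearMap.norm_id_le
    have h2 := norm_nonneg T
    have h3 := norm_nonneg (1 : H →L[ℂ] H)
    nlinarith
  refine ⟨cfc g T, ?_, ?_, ?_⟩
  · exact (cfc_predicate g T : IsSelfAdjoint (cfc g T))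
  · have hgo : ContinuousOn g (spectrum ℝ T) := hgc.continuousOn
    have h1 : (1 : H →L[ℂ] H) + cfc g T * cfc g T = cfc (fun t => 1 + g t * g t) T := by
      rw [cfc_add (R := ℝ) T (fun _ => (1 : ℝ)) (fun t => g t * g t) (by fun_prop)
        (hgo.mul hgo), cfc_mul g g T hgo hgo, cfc_const_one ℝ T]
    have h2 : T * cfc (fun t => 1 + g t * g t) T = cfc (fun t => t * (1 + g t * g t)) T := by
      rw [cfc_mul (fun t : ℝ => t) (fun t => 1 + g t * g t) T (by fun_prop)
        (by fun_prop), cfc_id' ℝ T]
    have h3 : (2 : ℂ) • cfc g T = cfc (fun t => g t + g t) T := by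
      rw [cfc_add (R := ℝ) T g g hgo hgo, two_smul]
    rw [h1, h2, h3]
    apply cfc_congr
    intro t ht
    have hle := hspec t ht
    have h4 : 0 ≤ 1 - t ^ 2 := by
      have := abs_le.1 hle
      nlinarith [this.1, this.2]
    have h5 := Real.sq_sqrt h4
    have h6 := hpos t
    simp only [hg]
    set c := Real.sqrt (1 - t ^ 2)
    field_simp
    linear_combination t * h5
  · intro y hy
    have h : Commute (cfc g T) y := by
      apply Commute.cfc
      · exact (show Commute T y from hy.symm)
      · rw [hT]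
        exact (show Commute T y from hy.symm)
    exact h.symm

end Pool.Agent.H11.IX
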