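import Pool.Agent.H39.IX.Targets

/-!
# MP_323167_an: modules GEN and RCM (commutants of sets closed under the adjoint)
-/

set_option autoImplicit false

open scoped InnerProductSpace Topology
open Filter Finset Pool.Agent.H80.G2

namespace Pool.Agent.H11.IX

open Pool.Agent.H39.IX

/-- the commutant of a set which is closed under the adjoint -/
theorem com_alg {H : Type} [NormedAddCommGroup H] [InnerProductSpace ℂ H] [CompleteSpace H]
    (T : Set (H →L[ℂ] H)) (hT : ∀ t ∈ T, star t ∈ T) :
    ∃ Q : VonNeumannAlgebra H, ∀ x, x ∈ Q ↔ ∀ t ∈ T, t * x = x * t := by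
  refine ⟨⟨StarSubalgebra.centralizer ℂ T, ?_⟩, fun x => ?_⟩
  · exact Set.centralizer_centralizer_centralizer (T ∪ star T)
  · change x ∈ StarSubalgebra.centralizer ℂ T ↔ _
    rw [StarSubalgebra.mem_centralizer_iff]
    exact ⟨fun h t ht => (h t ht).1, fun h t ht => ⟨h t ht, h _ (hT t ht)⟩⟩

theorem pf_GEN : T_GEN := by
  intro H _ _ _ S hS
  obtain ⟨Q, hQ⟩ := com_alg {y : H →L[ℂ] H | ∀ s ∈ S, s * y = y * s} (fun y hy s hs => by
    have h := congrArg star (hy _ (hS s hs))
    rw [star_mul, star_mul, star_star] at h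
    exact h.symm)
  refine ⟨Q, fun x => ?_⟩
  rw [hQ]
  exact ⟨fun h y hy => (h y hy).symm, fun h y hy => (h y hy).symm⟩

end Pool.Agent.H11.IX
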