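import Pool.Agent.H11.IX.GEN

/-!
# MP_323167_an: module RCM (the relative commutant)
-/

set_option autoImplicit false

open scoped InnerProductSpace Topology
open Filter Finset Pool.Agent.H80.G2

namespace Pool.Agent.H11.IX

open Pool.Agent.H39.IX

theorem pf_RCM : T_RCM := by
  intro H _ _ _ N G hG
  obtain ⟨Q, hQ⟩ := com_alg
    ({y : H →L[ℂ] H | ∀ a ∈ N, a * y = y * a} ∪ {g | InG G g}) (fun y hy => by
    rcases hy with hy | ⟨n, hn⟩
    · left
      intro a ha
      have h := congrArg star (hy _ (star_mem ha))
      rw [star_mul, star_mul, star_star] at h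
      exact h.symm
    · exact Or.inr ⟨n, hG.star n y hn⟩)
  refine ⟨Q, fun x => ?_⟩
  rw [hQ]
  have hN : x ∈ N ↔ ∀ y : H →L[ℂ] H, (∀ a ∈ N, a * y = y * a) → y * x = x * y := by
    have h := N.centralizer_centralizer
    constructor
    · intro hx y hy
      exact (hy x hx).symm
    · intro hx
      have h1 : x ∈ Set.centralizer (Set.centralizer (N : Set (H →L[ℂ] H))) := by
        rw [Set.mem_centralizer_iff]
        intro y hy
        rw [Set.mem_centralizer_iff] at hy
        exact hx y hy
      rw [h] at h1
      exact h1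
  rw [hN]
  constructor
  · intro h
    exact ⟨fun y hy => h y (Or.inl hy), fun g hg => h g (Or.inr hg)⟩
  · rintro ⟨h1, h2⟩ t (ht | ht)
    · exact h1 t ht
    · exact h2 t ht

end Pool.Agent.H11.IX
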