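import Pool.Agent.H39.IX.Targets

/-!
# MP_323167_an: module SCD (distance to the scalars)
-/

set_option autoImplicit false

open scoped InnerProductSpace Topology
open Filter Finset Pool.Agent.H80.G2

namespace Pool.Agent.H11.IX

open Pool.Agent.H39.IX

theorem pf_SCD (hAVG : Pool.Agent.H80.G2.T_AVG) (hSTR : Pool.Agent.H80.G2.T_STR) : T_SCD := by
  intro H _ _ _ P ξ hξ hfac a ha r hr
  obtain ⟨T, hT, hlim⟩ := hAVG H P ξ hξ hfac a ha
  have hr0 : 0 ≤ r := (norm_nonneg _).trans (hr 1 ⟨one_mem P, by simp, by simp⟩)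
  have key : ∀ y : H →L[ℂ] H, Mc (Orb P a) y → y ∈ P ∧ ‖y - a‖ ≤ r := by
    intro y hy
    induction hy with
    | base x h =>
      obtain ⟨u, hu, rfl⟩ := h
      exact ⟨mul_mem (mul_mem hu.1 ha) (star_mem hu.1), hr u hu⟩
    | mid x y hx hy ihx ihy =>
      refine ⟨P.toStarSubalgebra.smul_mem (add_mem ihx.1 ihy.1) _, ?_⟩
      have h : (1 / 2 : ℂ) • (x + y) - a = (1 / 2 : ℂ) • ((x - a) + (y - a)) := by
        module
      rw [h, norm_smul]
      have h1 : ‖(1 / 2 : ℂ)‖ = 1 / 2 := by norm_num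
      rw [h1]
      have h2 := norm_add_le (x - a) (y - a)
      linarith [ihx.2, ihy.2]
  have h1 : (1 : H →L[ℂ] H) ∈ P := one_mem P
  have hs := hSTR H P ξ hξ T (‖a‖ + r) (tr ξ a • (1 : H →L[ℂ] H)) (fun k => (key _ (hT k)).1)
    (fun k => by
      have h := (key _ (hT k)).2
      have h2 := norm_add_le (T k - a) a
      rw [sub_add_cancel] at h2
      linarith) (P.toStarSubalgebra.smul_mem h1 _) hlim
  refine ⟨tr ξ a, ?_⟩
  rw [← norm_neg, neg_sub]
  refine ContinuousLinearMap.opNorm_le_bound _ hr0 fun ζ => ?_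
  have h2 : Tendsto (fun k => ‖(T k - a) ζ‖) atTop (𝓝 ‖(tr ξ a • (1 : H →L[ℂ] H) - a) ζ‖) := by
    have h3 := ((hs ζ).sub_const (a ζ)).norm
    exact h3
  refine le_of_tendsto h2 (Eventually.of_forall fun k => ?_)
  have h4 := (T k - a).le_opNorm ζ
  have h5 := (key _ (hT k)).2
  have h6 := norm_nonneg ζ
  nlinarith

end Pool.Agent.H11.IX
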